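import Pool.Agent.W477.GM.Stms

set_option autoImplicit false
set_option linter.all false
set_option maxHeartbeats 1000000

namespace Pool.Agent.W477.GM.W918Truth

open Pool.Agent.W477.GM

section

variable {P : Type 1} [PartialOrder P] [OrderTop P]

theorem upd_all {D1 : Nm P → Prop} {v : ℕ → Nm P} (hv : ∀ i, D1 (v i)) (i : ℕ) {x : Nm P}
    (hx : D1 x) : ∀ j, D1 (Function.update v i x j) := by
  intro j
  by_cases hj : j = i
  · subst hj
    rw [Function.update_self]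
    exact hx
  · rw [Function.update_of_ne hj]
    exact hv j

theorem upd_cl {M : Type 1} (cl : Nm P → M) (v : ℕ → Nm P) (i : ℕ) (x : Nm P) :
    (fun j => cl (Function.update v i x j)) = Function.update (fun j => cl (v j)) i (cl x) := by
  funext j
  by_cases hj : j = i
  · subst hj
    rw [Function.update_self, Function.update_self]
  · rw [Function.update_of_ne hj, Function.update_of_ne hj]

theorem truth_lemma (hFc : ∀ D : Nm P → Prop, FcF P D) {G : Set P} (hG : IsFil G)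
    {D0 : Nm P → Prop} {M : Type 1} {mem : M → M → Prop} {cl : Nm P → M}
    (h2 : ∀ x y, D0 x → D0 y → (cl x = cl y ↔ ∃ p, p ∈ G ∧ feq x y p))
    (h3 : ∀ x y, D0 x → D0 y → (mem (cl x) (cl y) ↔ ∃ p, p ∈ G ∧ fmem x y p))
    (D D1 : Nm P → Prop) (hD : ∀ x, D1 x → D0 x) (hgen : Gen D G D1) (φ : Fm) :
    ∀ v : ℕ → Nm P, (∀ i, D1 (v i)) →
      (SatR mem (fun m => ∃ x, D1 x ∧ cl x = m) φ (fun i => cl (v i)) ↔
        ∃ p, p ∈ G ∧ Fc D φ v p) := by
  have hmono := (hFc D).mono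
  induction φ with
  | eq i j =>
    intro v hv
    exact h2 _ _ (hD _ (hv i)) (hD _ (hv j))
  | mem i j =>
    intro v hv
    exact h3 _ _ (hD _ (hv i)) (hD _ (hv j))
  | fls =>
    intro v hv
    constructor
    · intro h
      exact absurd h (fun h => h)
    · rintro ⟨p, _, h⟩
      exact h
  | imp a b iha ihb =>
    intro v hv
    constructor
    · intro h
      obtain ⟨p, hp, h0 | h0⟩ := hgen.dec (.imp a b) v hv
      · exact ⟨p, hp, h0⟩
      · exfalso
        obtain ⟨r, hr, h' | h'⟩ := hgen.dec a v hv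
        · have h4 := h ((iha v hv).2 ⟨r, hr, h'⟩)
          obtain ⟨r', hr', h5⟩ := (ihb v hv).1 h4
          obtain ⟨s, hs, hsp, hsr⟩ := hG.dir p r' hp hr'
          exact h0 s hsp (fun q hq _ => hmono b v r' q (hq.trans hsr) h5)
        · obtain ⟨s, hs, hsp, hsr⟩ := hG.dir p r hp hr
          exact h0 s hsp (fun q hq hqa => absurd hqa (h' q (hq.trans hsr)))
    · rintro ⟨p, hp, h⟩ h4
      obtain ⟨p', hp', h5⟩ := (iha v hv).1 h4
      obtain ⟨r, hr, hrp, hrp'⟩ := hG.dir p p' hp hp'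
      exact (ihb v hv).2 ⟨r, hr, h r hrp (hmono a v p' r hrp' h5)⟩
  | all i a ih =>
    intro v hv
    constructor
    · intro h
      rcases hgen.wit a i v hv with h4 | ⟨x, hx, p, hp, h4⟩
      · exact h4
      · exfalso
        have h5 : SatR mem (fun m => ∃ x, D1 x ∧ cl x = m) a
            (Function.update (fun j => cl (v j)) i (cl x)) := h (cl x) ⟨x, hx, rfl⟩
        rw [← upd_cl cl v i x] at h5
        obtain ⟨p', hp', h6⟩ := (ih (Function.update v i x) (upd_all hv i hx)).1 h5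
        obtain ⟨r, hr, hrp, hrp'⟩ := hG.dir p p' hp hp'
        exact h4 r hrp (hmono a _ p' r hrp' h6)
    · rintro ⟨p, hp, h⟩ m ⟨x, hx, rfl⟩
      rw [← upd_cl cl v i x]
      exact (ih (Function.update v i x) (upd_all hv i hx)).2 ⟨p, hp, h x (hgen.sub x hx)⟩

end

theorem truth_holds (h : P_EQ) (h2 : P_FC) : P_TRUTH := by
  classical
  intro P _ _ G D0 hG hne
  have hE := h P
  obtain ⟨x0, hx0⟩ := hne
  let st : Setoid {x : Nm P // D0 x} :=
    { r := fun x y => ∃ p, p ∈ G ∧ feq x.1 y.1 p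
      iseqv :=
        { refl := fun x => by
            obtain ⟨p, hp⟩ := hG.ne
            exact ⟨p, hp, hE.refl _ _⟩
          symm := by
            rintro x y ⟨p, hp, h⟩
            exact ⟨p, hp, hE.symm _ _ _ h⟩
          trans := by
            rintro x y z ⟨p, hp, h⟩ ⟨q, hq, h'⟩
            obtain ⟨r, hr, hrp, hrq⟩ := hG.dir p q hp hq
            exact ⟨r, hr, hE.trans _ _ _ _ (hE.mono _ _ _ _ hrp h) (hE.mono _ _ _ _ hrq h')⟩ } }
  let cl : Nm P → Quotient st := fun x =>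
    if hx : D0 x then Quotient.mk st ⟨x, hx⟩ else Quotient.mk st ⟨x0, hx0⟩
  have hcl : ∀ x (hx : D0 x), cl x = Quotient.mk st ⟨x, hx⟩ := fun x hx => dif_pos hx
  have a1 : ∀ m : Quotient st, ∃ x, D0 x ∧ cl x = m := by
    intro m
    induction m using Quotient.ind with
    | _ x => exact ⟨x.1, x.2, hcl x.1 x.2⟩
  have a2 : ∀ x y, D0 x → D0 y → (cl x = cl y ↔ ∃ p, p ∈ G ∧ feq x y p) := by
    intro x y hx hy
    rw [hcl x hx, hcl y hy]
    exact Quotient.eq (r := st)
  let mem : Quotient st → Quotient st → Prop := fun m m' =>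
    ∃ x y, D0 x ∧ D0 y ∧ cl x = m ∧ cl y = m' ∧ ∃ p, p ∈ G ∧ fmem x y p
  have a3 : ∀ x y, D0 x → D0 y → (mem (cl x) (cl y) ↔ ∃ p, p ∈ G ∧ fmem x y p) := by
    intro x y hx hy
    constructor
    · rintro ⟨x', y', hx', hy', h1, h2, p, hp, h3⟩
      obtain ⟨q, hq, h4⟩ := (a2 x' x hx' hx).1 h1
      obtain ⟨q', hq', h5⟩ := (a2 y' y hy' hy).1 h2
      obtain ⟨r, hr, hrp, hrq⟩ := hG.dir p q hp hq
      obtain ⟨s, hs, hsr, hsq⟩ := hG.dir r q' hr hq'
      exact ⟨s, hs, hE.mcongr _ _ _ _ _ (hE.mono _ _ _ _ (hsr.trans hrq) h4)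
        (hE.mono _ _ _ _ hsq h5) (hE.mmono _ _ _ _ (hsr.trans hrp) h3)⟩
    · rintro ⟨p, hp, h1⟩
      exact ⟨x, y, hx, hy, rfl, rfl, p, hp, h1⟩
  refine ⟨Quotient st, mem, cl, a1, a2, a3, ?_⟩
  intro D D1 hD hgen φ v hv
  exact truth_lemma (fun D => h2 P D) hG a2 a3 D D1 hD hgen φ v hv

end Pool.Agent.W477.GM.W918Truth
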